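import Pool.Agent.Q181.TG.Stm3

/-!
# TG-COL: one special column
-/

set_option autoImplicit false
set_option linter.unusedSectionVars false

namespace Pool.Agent.Q65.TG

open Pool.Agent.Q181.TG

/-- an additive map as a linear map over the integers -/
def toL {A B : Type} [AddCommGroup A] [AddCommGroup B] [Module ℤ A] [Module ℤ B] (f : A →+ B) :
    A →ₗ[ℤ] B where
  toFun := f
  map_add' := map_add f
  map_smul' n x := by
    have := map_intCast_smul f ℤ ℤ n x
    simpa using this

theorem toL_apply {A B : Type} [AddCommGroup A] [AddCommGroup B] [Module ℤ A] [Module ℤ B]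
    (f : A →+ B) (x : A) : toL f x = f x := rfl

theorem Qr_mem (X : Type) [DecidableEq X] (σ : X → X) {E : Type} [AddCommGroup E] (ξ η : E)
    (x : X) : (fun y => (if y = x then ξ else 0) + (if y = σ x then η else 0)) ∈ Qr X σ ξ η := by
  refine AddSubgroup.subset_closure ⟨x, ?_⟩
  funext y
  simp only [Pi.add_apply, Pi.single_apply]
  split_ifs <;> rfl

section col
variable {X I J : Type} [DecidableEq X] [DecidableEq J] (v : J) (σ : Equiv.Perm X)

/-- the map at the place `x` -/
def psi (x : X) : ({j // j ≠ v} ⊕ Bool → ℤ) →ₗ[ℤ] (X × J → ℤ) where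
  toFun g := fun p => (if p.1 = x then (if h : p.2 = v then g (Sum.inr false)
    else g (Sum.inl ⟨p.2, h⟩)) else 0) + (if p.1 = σ x ∧ p.2 = v then g (Sum.inr true) else 0)
  map_add' g g' := by
    funext p
    simp only [Pi.add_apply]
    split_ifs <;> ring
  map_smul' n g := by
    funext p
    simp only [Pi.smul_apply, smul_eq_mul, RingHom.id_apply]
    split_ifs <;> ring

theorem psi_apply (x : X) (g : {j // j ≠ v} ⊕ Bool → ℤ) (y : X) (j : J) :
    psi v σ x g (y, j) = (if y = x then (if h : j = v then g (Sum.inr false)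
    else g (Sum.inl ⟨j, h⟩)) else 0) + (if y = σ x ∧ j = v then g (Sum.inr true) else 0) := rfl

/-- the inverse map -/
def thp : (X × J → ℤ) →ₗ[ℤ] (X → ({j // j ≠ v} ⊕ Bool → ℤ)) where
  toFun f := fun x => Sum.elim (fun j => f (x, j.1)) (fun t => if t then 0 else f (x, v))
  map_add' f f' := by
    funext x b
    rcases b with j | t
    · rfl
    · rcases t with _ | _ <;> simp
  map_smul' n f := by
    funext x b
    rcases b with j | t
    · rfl
    · rcases t with _ | _ <;> simp

theorem thp_inl (f : X × J → ℤ) (x : X) (j : {j // j ≠ v}) :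
    thp v f x (Sum.inl j) = f (x, j.1) := rfl

theorem thp_false (f : X × J → ℤ) (x : X) : thp v f x (Sum.inr false) = f (x, v) := rfl

theorem thp_true (f : X × J → ℤ) (x : X) : thp v f x (Sum.inr true) = 0 := rfl

theorem psi_row (D : Matrix I J ℤ) (a b : I → ℤ) (M : Matrix (X × I) (X × J) ℤ)
    (hM : ∀ x y i j, M (x, i) (y, j) =
      if j = v then (if y = x then a i else 0) + (if y = σ x then b i else 0)
      else if y = x then D i j else 0) (x : X) (i : I) :
    psi v σ x (Sum.elim (fun j : {j // j ≠ v} => D i j.1) (fun t : Bool => if t then b i else a i))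
      = M (x, i) := by
  funext p
  obtain ⟨y, j⟩ := p
  rw [psi_apply, hM]
  by_cases hj : j = v
  · simp [hj]
  · simp [hj]

theorem thp_psi (x : X) (g : {j // j ≠ v} ⊕ Bool → ℤ) (y : X) :
    thp v (psi v σ x g) y = (if y = x then g else 0) - g (Sum.inr true) •
      ((if y = x then Pi.single (Sum.inr true) 1 else 0)
        + (if y = σ x then -Pi.single (Sum.inr false) 1 else 0)) := by
  funext b
  rcases b with j | t
  · rw [thp_inl, psi_apply]
    have hj := j.2
    simp only [Pi.sub_apply, Pi.smul_apply, Pi.add_apply, smul_eq_mul]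
    split_ifs <;> simp_all
  · rcases t with _ | _
    · rw [thp_false, psi_apply]
      simp only [Pi.sub_apply, Pi.smul_apply, Pi.add_apply, smul_eq_mul]
      split_ifs <;> simp_all
    · rw [thp_true]
      simp only [Pi.sub_apply, Pi.smul_apply, Pi.add_apply, smul_eq_mul]
      split_ifs <;> simp_all

theorem psi_ab (x : X) : psi v σ x (Pi.single (Sum.inr true) 1)
    + psi v σ (σ x) (-Pi.single (Sum.inr false) 1) = 0 := by
  funext p
  obtain ⟨y, j⟩ := p
  rw [Pi.add_apply, psi_apply, psi_apply]
  by_cases hj : j = v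
  · by_cases h1 : y = σ x <;> simp [hj, h1]
  · simp [hj]

theorem sum_psi_thp [Fintype X] (f : X × J → ℤ) : ∑ x, psi v σ x (thp v f x) = f := by
  funext p
  obtain ⟨y, j⟩ := p
  rw [Finset.sum_apply]
  have : ∀ x, psi v σ x (thp v f x) (y, j) = if y = x then f (y, j) else 0 := by
    intro x
    rw [psi_apply, thp_true]
    by_cases hj : j = v
    · by_cases h1 : y = x
      · subst h1; simp [hj, thp_false]
      · simp [h1]
    · by_cases h1 : y = x
      · subst h1; simp [hj, thp_inl]
      · simp [h1]
  simp [this]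

end col

theorem t_col : S_tc → S_col := by
  intro htc X I J _ _ _ _ D v a b σ M hM D' hD'
  classical
  have : Fintype X := Fintype.ofFinite X
  apply htc.1
  set ξ : Cok D' := Submodule.Quotient.mk (Pi.single (Sum.inr true) 1) with hξ
  set η : Cok D' := Submodule.Quotient.mk (-Pi.single (Sum.inr false) 1) with hη
  -- forward map
  have hmap : ∀ x, Submodule.span ℤ (Set.range D') ≤
      (Submodule.span ℤ (Set.range M)).comap (psi v σ x) := by
    intro x
    rw [Submodule.span_le]
    rintro _ ⟨i, rfl⟩
    show psi v σ x (D' i) ∈ Submodule.span ℤ (Set.range M)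
    rw [hD', psi_row v σ D a b M hM x i]
    exact Submodule.subset_span ⟨(x, i), rfl⟩
  set φ : X → (Cok D' →ₗ[ℤ] Cok M) := fun x => Submodule.mapQ _ _ (psi v σ x) (hmap x) with hφ
  have hφmk : ∀ x g, φ x (Submodule.Quotient.mk g) = Submodule.Quotient.mk (psi v σ x g) :=
    fun x g => rfl
  set Φ0 : (X → Cok D') →+ Cok M := ∑ x, (φ x).toAddMonoidHom.comp (Pi.evalAddMonoidHom _ x) with hΦ0
  have hΦ0a : ∀ F, Φ0 F = ∑ x, φ x (F x) := by
    intro F
    rw [hΦ0, AddMonoidHom.finsetSum_apply]
    rfl
  have hΦs : ∀ x q, Φ0 (fun y => if y = x then q else 0) = φ x q := by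
    intro x q
    rw [hΦ0a, Finset.sum_eq_single x]
    · rw [if_pos rfl]
    · intro y _ hy
      rw [if_neg hy, map_zero]
    · intro h
      exact absurd (Finset.mem_univ x) h
  have hΦs' : ∀ (inst : DecidableEq X) (x : X) (q : Cok D'),
      Φ0 (@Pi.single X (fun _ => Cok D') _ inst x q) = φ x q := by
    intro inst x q
    rw [← hΦs]
    congr 1
    funext y
    rw [Pi.single_apply]
    split_ifs <;> rfl
  have hker : Qr X σ ξ η ≤ Φ0.ker := by
    unfold Qr
    rw [AddSubgroup.closure_le]
    rintro _ ⟨x, rfl⟩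
    show Φ0 (_ + _) = 0
    rw [map_add, hΦs', hΦs', hξ, hη, hφmk, hφmk, ← Submodule.Quotient.mk_add]
    rw [psi_ab]
    exact Submodule.Quotient.mk_zero _
  -- backward map
  set Θ0 : (X × J → ℤ) →+ Qt X σ ξ η := (QuotientAddGroup.mk' (Qr X σ ξ η)).comp
    { toFun := fun f x => (Submodule.Quotient.mk (thp v f x) : Cok D')
      map_zero' := by
        funext x
        rw [map_zero]
        rfl
      map_add' := by
        intro f f'
        funext x
        rw [map_add]
        rfl } with hΘ0
  have hΘ0a : ∀ f, Θ0 f = QuotientAddGroup.mk (fun x => (Submodule.Quotient.mk (thp v f x) : Cok D')) :=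
    fun f => rfl
  have hΘψ : ∀ x g, Θ0 (psi v σ x g) = QuotientAddGroup.mk
      (fun y => if y = x then (Submodule.Quotient.mk g : Cok D') else 0) := by
    intro x g
    rw [hΘ0a]
    symm
    rw [QuotientAddGroup.eq]
    have hm := (Qr X σ ξ η).zsmul_mem (Qr_mem X σ ξ η x) (-g (Sum.inr true))
    convert hm using 1
    funext y
    simp only [Pi.add_apply, Pi.neg_apply, Pi.smul_apply]
    rw [thp_psi, Submodule.Quotient.mk_sub, Submodule.Quotient.mk_smul, Submodule.Quotient.mk_add]
    have e1 : (Submodule.Quotient.mk (if y = x then g else 0) : Cok D')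
        = if y = x then (Submodule.Quotient.mk g : Cok D') else 0 := by
      split_ifs <;> rfl
    have e2 : (Submodule.Quotient.mk (if y = x then Pi.single (Sum.inr true) 1 else 0) : Cok D')
        = if y = x then ξ else 0 := by
      split_ifs <;> rfl
    have e3 : (Submodule.Quotient.mk (if y = σ x then -Pi.single (Sum.inr false) 1 else 0) : Cok D')
        = if y = σ x then η else 0 := by
      split_ifs <;> rfl
    rw [e1, e2, e3]
    rw [neg_add_eq_sub, sub_sub_cancel_left, neg_smul]
  have hΘrow : ∀ x i, Θ0 (M (x, i)) = 0 := by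
    intro x i
    rw [← psi_row v σ D a b M hM x i, hΘψ]
    have e0 : (Submodule.Quotient.mk (Sum.elim (fun j : {j // j ≠ v} => D i j.1)
        (fun t : Bool => if t then b i else a i)) : Cok D') = 0 := by
      rw [Submodule.Quotient.mk_eq_zero]
      refine Submodule.subset_span ⟨i, ?_⟩
      rw [hD']
    rw [e0]
    simp only [ite_self]
    exact QuotientAddGroup.mk_zero _
  have hker2 : Submodule.span ℤ (Set.range M) ≤ LinearMap.ker (toL Θ0) := by
    rw [Submodule.span_le]
    rintro _ ⟨⟨x, i⟩, rfl⟩
    show Θ0 (M (x, i)) = 0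
    exact hΘrow x i
  set Θ : Cok M →ₗ[ℤ] Qt X σ ξ η := Submodule.liftQ _ (toL Θ0) hker2 with hΘ
  set Φ : Qt X σ ξ η →+ Cok M := QuotientAddGroup.lift (Qr X σ ξ η) Φ0 hker with hΦ
  have h12 : ∀ q, Φ (Θ q) = q := by
    intro q
    obtain ⟨f, rfl⟩ := Submodule.Quotient.mk_surjective _ q
    show Φ0 (fun x => (Submodule.Quotient.mk (thp v f x) : Cok D')) = _
    rw [hΦ0a]
    simp only [hφmk]
    have e : (∑ x, (Submodule.Quotient.mk (psi v σ x (thp v f x)) : Cok M))
        = Submodule.Quotient.mk (∑ x, psi v σ x (thp v f x)) := by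
      have := map_sum (Submodule.mkQ (Submodule.span ℤ (Set.range M)))
        (fun x => psi v σ x (thp v f x)) Finset.univ
      exact this.symm
    rw [e, sum_psi_thp]
  have h21 : ∀ q, Θ (Φ q) = q := by
    intro q
    obtain ⟨F, rfl⟩ := QuotientAddGroup.mk_surjective q
    show Θ (Φ0 F) = _
    rw [hΦ0a, map_sum]
    have e1 : ∀ x, Θ (φ x (F x)) = QuotientAddGroup.mk (fun y => if y = x then F x else 0) := by
      intro x
      obtain ⟨g, hg⟩ := Submodule.Quotient.mk_surjective _ (F x)
      rw [← hg, hφmk]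
      exact hΘψ x g
    rw [Finset.sum_congr rfl (fun x _ => e1 x)]
    have := map_sum (QuotientAddGroup.mk' (Qr X σ ξ η))
      (fun x => fun y => if y = x then F x else 0) Finset.univ
    have e2 : (∑ x, fun y => if y = x then F x else 0) = F := by
      funext y
      rw [Finset.sum_apply]
      simp
    rw [e2] at this
    exact this.symm
  exact ⟨{ toFun := Θ, invFun := Φ, left_inv := h12, right_inv := h21, map_add' := map_add Θ }⟩

end Pool.Agent.Q65.TG
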