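import Pool.Agent.Q181.TG.Stm1

/-!
# TG-PER: periodic paths
-/

set_option autoImplicit false

namespace Pool.Agent.Q65.TG

open Pool.Agent.Q181.BD Pool.Agent.Q181.TG

variable {V : Type}

theorem chain_of_rtg (r : V → V → Prop) (u v : V) (h : Relation.ReflTransGen r u v) :
    ∃ (n : ℕ) (c : ℕ → V), c 0 = u ∧ c n = v ∧ ∀ i, i < n → r (c i) (c (i + 1)) := by
  induction h with
  | refl => exact ⟨0, fun _ => u, rfl, rfl, fun i hi => absurd hi (by omega)⟩
  | tail _ hbc ih =>
    rename_i b w _
    obtain ⟨n, c, h0, hn, hc⟩ := ih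
    refine ⟨n + 1, fun i => if i ≤ n then c i else w, ?_, ?_, ?_⟩
    · simp [h0]
    · simp
    · intro i hi
      by_cases h : i < n
      · show r (if i ≤ n then c i else w) (if i + 1 ≤ n then c (i + 1) else w)
        rw [if_pos (by omega), if_pos (by omega)]
        exact hc i h
      · have : i = n := by omega
        subst this
        show r (if i ≤ i then c i else w) (if i + 1 ≤ i then c (i + 1) else w)
        rw [if_pos le_rfl, if_neg (by omega), hn]
        exact hbc

theorem W_zpow (W : V → V → ℤ) (T : Equiv.Perm V) (h : ∀ u v, W (T u) (T v) = W u v) (m : ℤ)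
    (u v : V) : W ((T ^ m) u) ((T ^ m) v) = W u v := by
  induction m using Int.induction_on with
  | zero => simp
  | succ i ih => rw [add_comm, zpow_add, zpow_one, Equiv.Perm.mul_apply, Equiv.Perm.mul_apply, h, ih]
  | pred i ih =>
    have e : ∀ x, (T ^ (-(i : ℤ))) x = T ((T ^ (-(i : ℤ) - 1)) x) := by
      intro x
      rw [← Equiv.Perm.mul_apply]
      congr 1
      nth_rewrite 2 [← zpow_one T]
      rw [← zpow_add]
      congr 1
      ring
    rw [e u, e v, h] at ih
    exact ih

theorem S_zpow (U : Equiv.Perm V) (S : Set V) (h : ∀ v, U v ∈ S ↔ v ∈ S) (m : ℤ)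
    (v : V) : (U ^ m) v ∈ S ↔ v ∈ S := by
  induction m using Int.induction_on generalizing v with
  | zero => simp
  | succ i ih => rw [add_comm, zpow_add, zpow_one, Equiv.Perm.mul_apply, h, ih]
  | pred i ih =>
    have e : ∀ x, (U ^ (-(i : ℤ))) x = U ((U ^ (-(i : ℤ) - 1)) x) := by
      intro x
      rw [← Equiv.Perm.mul_apply]
      congr 1
      nth_rewrite 2 [← zpow_one U]
      rw [← zpow_add]
      congr 1
      ring
    rw [← ih v, e v, h]

/-- a chain in `S` which closes up by a power of `T` -/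
structure Chn (W : V → V → ℤ) (T : Equiv.Perm V) (S : Set V) (s : ℤ) (L : ℕ) (k : ℤ)
    (c : ℕ → V) : Prop where
  pos : 1 ≤ L
  ne : k ≠ 0
  dvd : s ∣ k
  mem : ∀ i, i ≤ L → c i ∈ S
  adj : ∀ i, i < L → W (c i) (c (i + 1)) ≠ 0
  clo : c L = (T ^ k) (c 0)

/-- the periodic extension -/
noncomputable def zf (T : Equiv.Perm V) (L : ℕ) (k : ℤ) (c : ℕ → V) (n : ℤ) : V :=
  (T ^ (k * (n / L))) (c (n % L).toNat)

theorem zf_add (T : Equiv.Perm V) (L : ℕ) (hL : 1 ≤ L) (k : ℤ) (c : ℕ → V) (n t : ℤ) :
    zf T L k c (n + t * L) = (T ^ (k * t)) (zf T L k c n) := by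
  unfold zf
  have hL' : (L : ℤ) ≠ 0 := by omega
  rw [Int.add_mul_ediv_right _ _ hL', Int.add_mul_emod_self_right, mul_add, add_comm (k * _),
    zpow_add, Equiv.Perm.mul_apply]

theorem t_per : S_per := by
  intro V W T hS S s hs hne hinv hconn
  classical
  have hex : ∃ L, ∃ (k : ℤ) (c : ℕ → V), Chn W T S s L k c := by
    obtain ⟨x, hx⟩ := hne
    have hx' : (T ^ s) x ∈ S := (hinv x).2 hx
    obtain ⟨n, c, h0, hn, hc⟩ := chain_of_rtg _ _ _ (hconn x hx _ hx')
    have hn1 : 1 ≤ n := by
      rcases Nat.eq_zero_or_pos n with h | h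
      · exfalso
        subst h
        rw [h0] at hn
        exact hs (hS.free s x hn.symm)
      · exact h
    refine ⟨n, s, c, hn1, hs, dvd_refl s, ?_, fun i hi => (hc i hi).1, by rw [hn, h0]⟩
    intro i hi
    rcases Nat.eq_zero_or_pos i with h | h
    · subst h; rw [h0]; exact hx
    · have := (hc (i - 1) (by omega)).2.2
      rwa [Nat.sub_add_cancel h] at this
  obtain ⟨k, c, hc⟩ := Nat.find_spec hex
  have hmin : ∀ L', L' < Nat.find hex → ∀ k' c', ¬ Chn W T S s L' k' c' := by
    intro L' hL' k' c' h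
    exact Nat.find_min hex hL' ⟨k', c', h⟩
  set L := Nat.find hex with hLd
  have hL := hc.pos
  have hL' : (L : ℤ) ≠ 0 := by omega
  have hLp : (0 : ℤ) < L := by omega
  set z := zf T L k c with hz
  have hT : ∀ n t : ℤ, z (n + t * L) = (T ^ (k * t)) (z n) := zf_add T L hL k c
  have hT1 : ∀ n : ℤ, z (n + L) = (T ^ k) (z n) := by
    intro n
    have := hT n 1
    rwa [one_mul, mul_one] at this
  have hk : ∀ m : ℤ, ∀ v, (T ^ (k * m)) v ∈ S ↔ v ∈ S := by
    intro m v
    obtain ⟨q, hq⟩ := hc.dvd
    rw [hq, mul_assoc, zpow_mul]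
    exact S_zpow (T ^ s) S hinv _ v
  have hzS : ∀ n, z n ∈ S := by
    intro n
    rw [hz]
    unfold zf
    rw [hk]
    apply hc.mem
    have h1 := Int.emod_lt_of_pos n hLp
    have h2 := Int.emod_nonneg n hL'
    omega
  have hzadj : ∀ n, W (z n) (z (n + 1)) ≠ 0 := by
    intro n
    have h1 := Int.emod_lt_of_pos n hLp
    have h2 := Int.emod_nonneg n hL'
    have h3 := Int.emod_add_mul_ediv n L
    by_cases h4 : n % L + 1 < L
    · have e1 : (n + 1) / L = n / L := by
        have : n + 1 = (n % L + 1) + (n / L) * L := by linarith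
        rw [this, Int.add_mul_ediv_right _ _ hL', Int.ediv_eq_zero_of_lt (by omega) h4, zero_add]
      have e2 : (n + 1) % L = n % L + 1 := by
        have : n + 1 = (n % L + 1) + (n / L) * L := by linarith
        rw [this, Int.add_mul_emod_self_right, Int.emod_eq_of_lt (by omega) h4]
      rw [hz]
      unfold zf
      rw [e1, e2, W_zpow W T hS.inv]
      have e3 : (n % L + 1).toNat = (n % L).toNat + 1 := by omega
      rw [e3]
      exact hc.adj _ (by omega)
    · have h5 : n % L = L - 1 := by omega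
      have e1 : (n + 1) / L = n / L + 1 := by
        have : n + 1 = 0 + (n / L + 1) * L := by
          rw [h5] at h3
          linarith
        rw [this, Int.add_mul_ediv_right _ _ hL', Int.zero_ediv, zero_add]
      have e2 : (n + 1) % L = 0 := by
        have : n + 1 = 0 + (n / L + 1) * L := by
          rw [h5] at h3
          linarith
        rw [this, Int.add_mul_emod_self_right, Int.zero_emod]
      rw [hz]
      unfold zf
      rw [e1, e2, mul_add, mul_one, zpow_add, Equiv.Perm.mul_apply]
      have e4 : (T ^ k) (c (0 : ℤ).toNat) = c L := hc.clo.symm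
      rw [e4, W_zpow W T hS.inv]
      have e3 : (n % L).toNat = L - 1 := by omega
      rw [e3]
      have := hc.adj (L - 1) (by omega)
      rwa [Nat.sub_add_cancel hL] at this
  have hinj' : ∀ a b : ℤ, a < b → z a ≠ z b := by
    intro a b hab heq
    have h1 := Int.emod_lt_of_pos (b - a) hLp
    have h2 := Int.emod_nonneg (b - a) hL'
    have h3 := Int.emod_add_mul_ediv (b - a) L
    set r : ℤ := (b - a) % L with hr
    set t : ℤ := (b - a) / L with ht
    have hb : b = (a + r) + t * L := by linarith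
    rw [hb, hT] at heq
    by_cases hr0 : r = 0
    · rw [hr0, add_zero] at heq
      have := hS.free _ _ heq.symm
      rcases mul_eq_zero.1 this with h | h
      · exact hc.ne h
      · rw [h, hr0] at hb
        omega
    · have hr1 : 1 ≤ r := by omega
      have e1 : z (a + r) = (T ^ (-(k * t))) (z a) := by
        rw [heq, ← Equiv.Perm.mul_apply, ← zpow_add, neg_add_cancel, zpow_zero, Equiv.Perm.one_apply]
      by_cases ht0 : t = 0
      · rw [ht0, mul_zero, zpow_zero, Equiv.Perm.one_apply] at heq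
        refine hmin (L - r.toNat) (by omega) k (fun i => z (a + r + i)) ⟨by omega, hc.ne, hc.dvd, ?_, ?_, ?_⟩
        · intro i _
          exact hzS _
        · intro i _
          have := hzadj (a + r + i)
          rwa [show a + r + (i : ℤ) + 1 = a + r + ((i + 1 : ℕ) : ℤ) by push_cast; ring] at this
        · have e2 : a + r + ((L - r.toNat : ℕ) : ℤ) = a + L := by omega
          show z (a + r + ((L - r.toNat : ℕ) : ℤ)) = (T ^ k) (z (a + r + ((0 : ℕ) : ℤ)))
          rw [e2, hT1, Nat.cast_zero, add_zero, heq]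
      · refine hmin r.toNat (by omega) (-(k * t)) (fun i => z (a + i))
          ⟨by omega, neg_ne_zero.2 (mul_ne_zero hc.ne ht0), (dvd_neg.2 (hc.dvd.mul_right t)), ?_, ?_, ?_⟩
        · intro i _
          exact hzS _
        · intro i _
          have := hzadj (a + i)
          rwa [show a + (i : ℤ) + 1 = a + ((i + 1 : ℕ) : ℤ) by push_cast; ring] at this
        · show z (a + (r.toNat : ℤ)) = (T ^ (-(k * t))) (z (a + ((0 : ℕ) : ℤ)))
          rw [Int.toNat_of_nonneg h2, e1, Nat.cast_zero, add_zero]
  refine ⟨z, k, L, ⟨hL, hc.ne, ?_, hzadj, fun j => (hT1 j).symm⟩, hzS⟩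
  intro a b hab
  rcases lt_trichotomy a b with h | h | h
  · exact absurd hab (hinj' a b h)
  · exact h
  · exact absurd hab.symm (hinj' b a h)

end Pool.Agent.Q65.TG
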